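import Pool.Agent.Helper93.TCU.SStmt2

/-!
# The S-stage: assembly
-/

set_option autoImplicit false

namespace Pool.TCU

open Pool.TC Pool.TCM Pool.TCS Pool.TCV Finset
open scoped Classical

section sas

variable {V κ : Type} [Fintype V] [Fintype κ] {P : Par} {t : Td V κ}

private theorem sas_D (hn : Num10 P) : (1 : ℝ) ≤ P.D := by
  have h1 : (1 : ℝ) ≤ P.X := by
    have h2 : 1 ≤ P.X := le_trans (by norm_num) hn.X0
    exact_mod_cast h2
  exact le_trans (one_le_pow₀ h1) hn.XD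

private theorem sas_mem {u : V} : u ∈ sU t ↔ t.U u := by
  unfold sU
  simp

private theorem sas_beta {K : ℕ} (hK : 24 ≤ K) : 0 < bet (8 * K) K ∧ bet (8 * K) K ≤ 1 / 192 := by
  have hK' : (24 : ℝ) ≤ K := by exact_mod_cast hK
  have h8 : ((8 * K : ℕ) : ℝ) = 8 * (K : ℝ) := by push_cast; ring
  have hp : (0 : ℝ) < 8 * (K : ℝ) := by linarith
  have h1 : 1 / (8 * (K : ℝ)) ≤ 1 / 192 := one_div_le_one_div_of_le (by norm_num) (by linarith)
  have h2 : 0 < 1 / (8 * (K : ℝ)) := one_div_pos.2 hp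
  unfold bet
  rw [h8]
  refine ⟨mul_pos h2 (pow_pos (by linarith) _), ?_⟩
  calc 1 / (8 * (K : ℝ)) * (1 - 1 / (8 * (K : ℝ))) ^ (2 * K)
      ≤ 1 / (8 * (K : ℝ)) * 1 := by
        apply mul_le_mul_of_nonneg_left _ h2.le
        exact pow_le_one₀ (by linarith) (by linarith)
    _ ≤ 1 / 192 := by linarith

/-- `(1 + 2 h0) ell + nz ≤ 2 ell` from the numbers -/
private theorem sas_two {D ell ell1 K n L0 : ℕ} {Lam x δ th xi k1 eta h0 nz g : ℝ}
    (h : N8 D ell ell1 K n L0 Lam x δ th xi k1 eta h0 nz g) :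
    (1 + 2 * h0) * ell + nz ≤ 2 * (ell : ℝ) := by
  obtain ⟨b0, b1⟩ := sas_beta h.K24
  have hl : (0 : ℝ) < ell := by exact_mod_cast h.l0
  have hEr : 0 ≤ Er K Lam ell := by unfold Er; positivity
  have hx : bet (8 * K) K * x / ell ≤ 1 / 96 := by
    rw [div_le_iff₀ hl]
    have h1 := h.x1
    nlinarith [mul_le_mul b1 h1 (by linarith [h.x0]) (by norm_num : (0 : ℝ) ≤ 1 / 192)]
  have hx0 : 0 ≤ bet (8 * K) K * x / ell := by
    have := h.x0
    positivity
  set β := bet (8 * K) K with hβ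
  set y := β * x / ell with hy
  -- `ell1 ≤ ell`
  have hq0 : 0 ≤ β - β ^ 2 * δ / 10 := by
    have h1 := h.δ1
    have h2 := h.δ0
    nlinarith [mul_nonneg b0.le h2.le, mul_nonneg b0.le (sub_nonneg.2 h1)]
  have hq1 : β - β ^ 2 * δ / 10 ≤ 1 := by
    have h2 := h.δ0
    nlinarith [mul_nonneg (sq_nonneg β) h2.le]
  have hk : 0 ≤ 7 * xi * k1 := by
    have h1 := h.xi0
    have h2 := h.k10
    positivity
  have hk1 : 7 * xi * k1 ≤ 1 := by
    have h1 := h.xi1
    have h2 : k1 ≤ 1 := le_trans h.ke h.e1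
    have h3 := h.k10
    have h4 := h.xi0
    nlinarith [mul_le_mul h1 h2 h3.le (by norm_num : (0 : ℝ) ≤ 1 / 100)]
  have hell1 : (ell1 : ℝ) ≤ ell := by
    refine le_trans h.lis ?_
    have h1 : (1 - (β - β ^ 2 * δ / 10)) * (1 - 7 * xi * k1) * (1 - y) ≤ 1 := by
      have e1 : (1 - (β - β ^ 2 * δ / 10)) * (1 - 7 * xi * k1) ≤ 1 :=
        mul_le_one₀ (by linarith) (by linarith) (by linarith)
      have e2 : 0 ≤ (1 - (β - β ^ 2 * δ / 10)) * (1 - 7 * xi * k1) :=
        mul_nonneg (by linarith) (by linarith)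
      exact mul_le_one₀ e1 (by linarith) (by linarith)
    have h2 := mul_le_mul_of_nonneg_left h1 hl.le
    have h3 := mul_nonneg hEr hl.le
    linarith
  have hp := h.pn1
  have hg : (1 - g) * (ell1 : ℝ) ≤ ell := by
    have h1 : (0 : ℝ) ≤ ell1 := Nat.cast_nonneg _
    have h2 := h.g0
    nlinarith [mul_nonneg h2.le h1]
  have h3 := mul_nonneg hEr hl.le
  have hz : 0 ≤ (1 + 2 * h0) * ell + nz := by
    have h1 := h.h00
    have h2 := h.nz0
    positivity
  have hw : 1 / 2 ≤ (1 - β) * (1 - y) := by nlinarith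
  have h4 := mul_le_mul_of_nonneg_right hw hz
  linarith

end sas

theorem thm_SAs (h1 : St_SLis) (h2 : St_SCol) (h3 : St_SPuc) (h4 : St_SPq) (h5 : St_STst)
    (h6 : St_SN) (h7 : St_SB) : St_SAs := by
  intro P V κ _ _ t X cX hn hB hX
  have hD := sas_D hn
  have hD0 : (0 : ℝ) < P.D := by linarith
  haveI : Nonempty κ := by
    have : 0 < Fintype.card κ := by rw [hB.ed.col]; omega
    exact Fintype.card_pos_iff.1 this
  obtain ⟨L, hL1, hL2, hL3, hL4⟩ := h1 P V κ t X cX hn hB hX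
  obtain ⟨hc1, hc2⟩ := h2 P V κ t X cX L hn hB hX hL1
  have hdeg := (h3 P V κ t hn hB).2
  have hpq := h4 P V κ t X cX L hn hB hL1
  obtain ⟨ht1, ht2, ht3⟩ := h5 P V κ t X cX L hn hB hL1
  obtain ⟨ell1, n, L0, hN, hHt, hDl⟩ := h6 P t.J0.card (sl P t) (sx P t) hn hB.ed.j0 rfl rfl
  have hU : ∀ u, u ∈ sU t ↔ t.U u := fun u => sas_mem
  have hO : ∀ u, t.U u → ∀ a ∈ L u, a ∉ t.J0 ∧ t.cr u a ∧ ¬ colX t X cX (t.E.N a u) ∧
      ∀ w, X w → t.G.Adj u w → cX w ≠ a := by
    intro u hu a ha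
    have := hL1 u ((hU u).2 hu) ha
    unfold sO at this
    exact (mem_filter.1 this).2
  have hA : SAbs (sCS P t) (sU t) L (2 * P.D) (sl P t) ell1 P.kn (sx P t) P.delta P.thp P.xi
      (sk1 P) P.eta ((1 / 2) ^ P.r) (8 * P.nz) (P.thp / 2) (skap P t) (shh P t) (skt t) := by
    refine ⟨hdeg, ?_, hL2, ?_, ?_, ?_, ?_, hL3, hL4, hc1, ?_, ?_, ?_, ?_, ?_⟩
    · rw [hB.ed.col]
      have : 1 ≤ P.D := by exact_mod_cast hD
      omega
    · intro u hu a ha a' ha' hr
      have e1 : t.E.N a u = t.E.N a' u := hr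
      have e2 := (hO u ((hU u).1 hu) a ha).2.1.1.1
      exact t.E.uniq a a' u e1 e2
    · intro u
      unfold skap
      positivity
    · intro u
      unfold skap
      rw [div_le_one hD0]
      have : t.dKU u ≤ (nb t.G u).card := by
        unfold Gd.dKU
        exact card_le_card (filter_subset _ _)
      rw [hB.gr.reg u] at this
      exact_mod_cast this
    · intro u _ hh
      unfold skap
      rw [le_div_iff₀ hD0]
      exact hB.gr.hvk u hh.1 hh.2
    · intro v
      rcases hc2 v with h | h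
      · left
        have e1 : (99 : ℝ) * ((Cv (sCS P t) (sU t) L v).card : ℝ) ≤ P.D := by exact_mod_cast h
        linarith
      · exact Or.inr h
    · intro u hu a ha
      exact (hpq u hu a ha).1
    · intro u hu a ha
      exact le_trans (hpq u hu a ha).1 (sas_two hN)
    · intro u hu a ha
      exact (hpq u hu a ha).2.1
    · intro u hu a ha
      exact (hpq u hu a ha).2.2
  obtain ⟨c, g1, g2, g3, g4⟩ := h7 V κ (V ⊕ V ⊕ (V × κ)) (sCS P t) (sU t) L (2 * P.D) (sl P t)
    ell1 P.kn n L0 P.Lam (sx P t) P.delta P.thp P.xi (sk1 P) P.eta ((1 / 2) ^ P.r) (8 * P.nz)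
    (P.thp / 2) (103 * P.delta * P.D ^ 2) (206 * P.delta * P.D ^ 3) (P.eta * P.D) (skap P t)
    (shh P t) (skt t) sctr (sT P t) hN hA ht1 ht2 ht3
  have gT : ∀ j, ∑ u ∈ sU t, sT P t j u (c u) ≤ P.eps * P.D := fun j => le_trans (g4 j) hHt
  -- free rows in `S`
  have hfree : ∀ u, t.K u = none → t.F0 u → t.A P u ∧ t.m u ∈ t.J0 := by
    intro u hu hf
    rcases hB.ac.f0 u hf with h | ⟨i, h, _⟩
    · exact h
    · exfalso
      have : t.K u = some i := by
        unfold Gd.Rg at h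
        exact (mem_filter.1 h).2.1
      rw [hu] at this
      exact Option.some_ne_none i this.symm
  have hdich : ∀ u, t.K u = none → t.U u ∨ t.F0 u := by
    intro u hu
    by_cases hf : t.F0 u
    · exact Or.inr hf
    · exact Or.inl ⟨hu, hf⟩
  set cS : V → κ := fun x => if t.U x then c x else t.m x with hcS
  have cU : ∀ x, t.U x → cS x = c x := fun x hx => if_pos hx
  have cF : ∀ x, t.F0 x → cS x = t.m x := fun x hx => if_neg (fun h => h.2 hx)
  have cL : ∀ x, t.U x → c x ∈ L x := fun x hx => g1 x ((hU x).2 hx)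
  refine ⟨cS, ⟨fun x _ hf => cF x hf, ?_, ?_, ?_, ?_, ?_, ?_⟩⟩
  · intro u v hu hv hadj
    rcases hdich u hu with hu1 | hu1 <;> rcases hdich v hv with hv1 | hv1
    · rw [cU u hu1, cU v hv1]
      exact g3 u ((hU u).2 hu1) v ((hU v).2 hv1) hadj
    · rw [cU u hu1, cF v hv1]
      intro he
      exact (hO u hu1 _ (cL u hu1)).1 (by rw [he]; exact (hfree v hv hv1).2)
    · rw [cF u hu1, cU v hv1]
      intro he
      exact (hO v hv1 _ (cL v hv1)).1 (by rw [← he]; exact (hfree u hu hu1).2)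
    · rw [cF u hu1, cF v hv1]
      intro he
      rcases hadj with h | ⟨_, _, _, i, h, _⟩
      · exact hB.ac.f1 u v hu1 hv1 ⟨t.G.ne_of_adj h, hB.ac.f0 u hu1, hB.ac.f0 v hv1, he, Or.inl h⟩
      · exact (hfree u hu hu1).1.2 i h
  · intro x hx
    rw [cU x hx]
    exact hO x hx _ (cL x hx)
  · intro x y hx hy he
    rw [cU x hx, cU y hy] at he
    by_contra hne
    exact g2 x ((hU x).2 hx) y ((hU y).2 hy) hne he
  · intro i
    refine le_trans (le_of_eq ?_) (gT (Sum.inl i))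
    have e1 : univ.filter (fun x => t.U x ∧ t.K (t.E.N (cS x) x) = some i) =
        (sU t).filter (fun x => t.K x = none ∧ t.K (t.E.N (c x) x) = some i) := by
      ext x
      simp only [mem_filter, mem_univ, true_and, hU]
      constructor
      · rintro ⟨a, b⟩
        rw [cU x a] at b
        exact ⟨a, a.1, b⟩
      · rintro ⟨a, _, b⟩
        rw [← cU x a] at b
        exact ⟨a, b⟩
    rw [e1, card_filter]
    push_cast
    exact sum_congr rfl (fun x _ => rfl)
  · intro i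
    refine le_trans ?_ (gT (Sum.inr (Sum.inl i)))
    have e2 : ∑ u ∈ sU t, sT P t (Sum.inr (Sum.inl i)) u (c u) =
        (((sU t).filter (fun x => t.K x = none ∧
          ∃ y, t.K y = some i ∧ t.F0 y ∧ t.G.Adj x y ∧ t.m y = c x)).card : ℝ) := by
      rw [card_filter]
      push_cast
      exact sum_congr rfl (fun x _ => rfl)
    rw [e2]
    norm_cast
    have hex : ∀ w ∈ univ.filter (fun w => t.K w = some i ∧ t.F0 w ∧
        ∃ x, t.U x ∧ t.G.Adj w x ∧ cS x = t.m w), ∃ x, t.U x ∧ t.G.Adj w x ∧ cS x = t.m w :=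
      fun w hw => (mem_filter.1 hw).2.2.2
    choose! f hf1 hf2 hf3 using hex
    refine card_le_card_of_injOn f ?_ ?_
    · intro w hw
      have hw' := hw
      have a1 := hf1 w hw
      have a2 := hf2 w hw
      have a3 := hf3 w hw
      have a4 := (mem_filter.1 hw').2
      rw [cU _ a1] at a3
      exact mem_coe.2 (mem_filter.2 ⟨(hU _).2 a1, a1.1, w, a4.1, a4.2.1, a2.symm, a3.symm⟩)
    · intro w hw w' hw' he
      by_contra hne
      have a3 := hf3 w hw
      have a4 := (mem_filter.1 hw).2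
      have b3 := hf3 w' hw'
      have b4 := (mem_filter.1 hw').2
      have he' : f w = f w' := he
      rw [he', b3] at a3
      exact hB.ac.f1 w w' a4.2.1 b4.2.1 ⟨hne, hB.ac.f0 w a4.2.1, hB.ac.f0 w' b4.2.1, a3.symm,
        Or.inr ⟨by rw [a4.1]; exact Option.some_ne_none i, by rw [a4.1, b4.1]⟩⟩
  · intro i b
    refine le_trans (le_of_eq ?_) (gT (Sum.inr (Sum.inr (i, b))))
    push_cast
    have e1 : univ.filter (fun x => t.U x ∧ ¬ t.hv P i x ∧ cS x = b) =
        (sU t).filter (fun x => t.K x = none ∧ ¬ t.hv P i x ∧ c x = b) := by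
      ext x
      simp only [mem_filter, mem_univ, true_and, hU]
      constructor
      · rintro ⟨a, a2, b⟩
        rw [cU x a] at b
        exact ⟨a, a.1, a2, b⟩
      · rintro ⟨a, _, a2, b⟩
        rw [← cU x a] at b
        exact ⟨a, a2, b⟩
    rw [e1, sum_filter]
    exact sum_congr rfl (fun x _ => rfl)

end Pool.TCU
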